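import Pool.Agent.Y376.Packing.Main

/-!
# The minimum positive deficiency of complete partial packings of PG(3, q), q odd

For every odd prime power `q` the minimum positive deficiency `m(q)` equals `2`.
Hence `m(q)` does not tend to infinity.

Construction: let `L` be the quadratic extension of `K = GF(q)`, `V = L × L`.  Johnson's
parallelism of `PG(3, q)` consists of a regular spread and the `q ^ 2 + q` Hall spreads `S(u, e)`.
The regular spread and the two Hall spreads `S(1, 0)`, `S(ω, 0)` are replaced by a single spread
`T_X` of André type contained in their union.  The lines left over form a two-fold cover of the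
points, and an odd closed cycle of consecutively meeting left over lines shows that no spread is
disjoint from the `q ^ 2 + q - 1` chosen spreads.
-/

namespace Pool.Agent.Results.MP_9569f1_co.MinDeficiencyTwo

open Pool.Agent.Y376.Packing

theorem result :
    (∀ (K : Type) [Field K] [Fintype K], Odd (Fintype.card K) →
      IsLeast (positiveDeficiencies K) 2) ∧
    ∃ C : ℕ, {q : ℕ | IsPrimePow q ∧ ∀ (K : Type) [Field K] [Fintype K], Fintype.card K = q →
      ∃ d ∈ positiveDeficiencies K, d ≤ C}.Infinite := by
  have main : ∀ (K : Type) [Field K] [Fintype K], Odd (Fintype.card K) →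
      IsLeast (positiveDeficiencies K) 2 := by
    intro K _ _ hodd
    refine ⟨⟨by norm_num, exists_deficiency_two K hodd⟩, ?_⟩
    rintro d ⟨hd, P, hP⟩
    by_contra hlt
    have h1 : d = 1 := by omega
    subst h1
    exact not_deficiency_one (by simp) P hP
  refine ⟨main, 2, ?_⟩
  rw [Set.infinite_iff_exists_gt]
  intro a
  refine ⟨3 ^ (a + 1), ⟨(Nat.prime_three.isPrimePow).pow (by omega), ?_⟩, ?_⟩
  · intro K _ _ hK
    have hodd : Odd (Fintype.card K) := by
      rw [hK]
      exact Odd.pow (by decide)
    exact ⟨2, (main K hodd).1, le_rfl⟩
  · have h1 : a + 1 < 3 ^ (a + 1) := Nat.lt_pow_self (by norm_num)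
    omega

end Pool.Agent.Results.MP_9569f1_co.MinDeficiencyTwo
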